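import Mathlib
import Pool.Agent.TH99.SubEmb

/-!
# Subgroup lattices that do not embed into subspace lattices over division rings

The subgroup lattice of the finite group `(ℤ/4)³` does not embed into the lattice of subspaces of
any vector space over any division ring.  More generally no abelian group having a subgroup which
maps onto `(ℤ/n)³` for some `n ≠ 1` which is not prime (`n = 0`, i.e. `ℤ³`, allowed) has a subgroup
lattice embeddable into such a subspace lattice.
-/

set_option autoImplicit false

universe u v w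

namespace Pool.Agent.Results.MP_0a2dc5_al.CubeOfCyclic

/-- `Sub(A)` has a lattice embedding into `Sub_D(V)` for some division ring `D` and some
(left) `D`-vector space `V`: an injective map preserving binary meets and binary joins. -/
def EmbedsInSubspaces (A : Type w) [AddCommGroup A] : Prop :=
  ∃ (D : Type u) (_ : DivisionRing D) (V : Type v) (_ : AddCommGroup V) (_ : Module D V)
    (f : AddSubgroup A → Submodule D V), Function.Injective f ∧
      (∀ X Y : AddSubgroup A, f (X ⊓ Y) = f X ⊓ f Y) ∧
      (∀ X Y : AddSubgroup A, f (X ⊔ Y) = f X ⊔ f Y)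

open Pool.Agent.TH99.SubEmb in
/-- The subgroup lattice of the finite abelian group `(ℤ/4)³` has no lattice embedding into the
subspace lattice of a vector space over a division ring; and the same holds for every abelian
group `A` with a subgroup `C` mapping onto `(ℤ/n)³`, for `n ≠ 1` not a prime (including `n = 0`,
where `(ℤ/n)³ = ℤ³`). -/
theorem result :
    (Finite (Fin 3 → ZMod 4) ∧ ¬ EmbedsInSubspaces.{u, v, 0} (Fin 3 → ZMod 4)) ∧
    ∀ n : ℕ, n ≠ 1 → ¬ n.Prime → ∀ (A : Type w) [AddCommGroup A] (C : AddSubgroup A)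
      (ψ : C →+ (Fin 3 → ZMod n)), Function.Surjective ψ → ¬ EmbedsInSubspaces.{u, v, w} A := by
  have key : ∀ n : ℕ, n ≠ 0 → n ≠ 1 → ¬ n.Prime → ∀ (A : Type w) [AddCommGroup A]
      (C : AddSubgroup A) (ψ : C →+ (Fin 3 → ZMod n)), Function.Surjective ψ →
      ¬ EmbedsInSubspaces.{u, v, w} A := by
    intro n h0 h1 hn A _ C ψ hψ
    obtain ⟨k, ⟨m, rfl⟩, hk1, hk2⟩ : ∃ k, k ∣ n ∧ k ≠ 1 ∧ k ≠ n :=
      (Nat.exists_dvd_of_not_prime (by omega) hn)
    rintro ⟨D, _, V, _, _, f, hf⟩
    have hk0 : k ≠ 0 := by rintro rfl; simp at h0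
    have hm0 : m ≠ 0 := by rintro rfl; simp at h0
    have hm1 : m ≠ 1 := by rintro rfl; simp at hk2
    have hf' : IsLatticeEmbedding f := hf
    exact main (k := k) (m := m) (by omega) (by omega)
      (hf'.comp (section_embedding C ψ hψ))
  refine ⟨⟨inferInstance, ?_⟩, ?_⟩
  · rintro ⟨D, _, V, _, _, f, hf⟩
    have hf' : IsLatticeEmbedding f := hf
    exact main (k := 2) (m := 2) le_rfl le_rfl hf'
  · intro n h1 hn A _ C ψ hψ
    rcases eq_or_ne n 0 with rfl | h0
    · refine key 4 (by norm_num) (by norm_num) (by norm_num) A C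
        (AddMonoidHom.comp (AddMonoidHom.compLeft
          (ZMod.castHom (dvd_zero 4) (ZMod 4)).toAddMonoidHom (Fin 3)) ψ) ?_
      intro t
      obtain ⟨s, hs⟩ : ∃ s : Fin 3 → ZMod 0, ∀ i, ZMod.castHom (dvd_zero 4) (ZMod 4) (s i) = t i :=
        ⟨fun i => Classical.choose (ZMod.castHom_surjective (dvd_zero 4) (t i)), fun i =>
          Classical.choose_spec (ZMod.castHom_surjective (dvd_zero 4) (t i))⟩
      obtain ⟨c, hc⟩ := hψ s
      refine ⟨c, ?_⟩
      ext i
      rw [AddMonoidHom.comp_apply, hc]
      exact hs i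
    · exact key n h0 h1 hn A C ψ hψ

end Pool.Agent.Results.MP_0a2dc5_al.CubeOfCyclic
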